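import Mathlib

/-!
# The omega-modification of a scattered compact space is a Sokolov space

Let `K` be compact Hausdorff and scattered. There is an injective rank `ρ : K → Ordinal` such that
all sets `{y | ρ y ≤ ρ x}` are open, so every nonempty clopen set `C` has a point `m C` of largest
rank. Given closed sets `F n` of the finite powers of the omega-modification, close off to get a
countable Boolean algebra `A` of clopen sets that contains witnesses for `m C 1, ..., m C n` not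
being in `F n`. The map `r` sends `z` to the point of least rank among the points `m C`, `z ∈ C ∈ A`.
It has countable range, it is locally constant on the omega-modification and preserves all `F n`.
-/

set_option autoImplicit false

open Set Topology Filter TopologicalSpace

universe u

namespace Pool.Agent.Results.MP_1116a9_gt.ScatteredSokolov

/-- A space is scattered if each nonempty subset `S` has a point that is isolated in `S`. -/
def Scattered (K : Type u) [TopologicalSpace K] : Prop :=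
  ∀ S : Set K, S.Nonempty → ∃ x ∈ S, ∃ U : Set K, IsOpen U ∧ U ∩ S = {x}

/-- The omega-modification of `K`: the same set, with the topology generated by the `G_δ`-sets. -/
def OmegaMod (K : Type u) : Type u := K

instance (K : Type u) [TopologicalSpace K] : TopologicalSpace (OmegaMod K) :=
  generateFrom {s : Set K | IsGδ s}

/-- `Y` has a countable network. -/
def CountableNetwork (Y : Type u) [TopologicalSpace Y] : Prop :=
  ∃ 𝒩 : Set (Set Y), 𝒩.Countable ∧ ∀ U : Set Y, IsOpen U → ∀ y ∈ U, ∃ N ∈ 𝒩, y ∈ N ∧ N ⊆ U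

/-- `X` is a Sokolov space: for all closed sets `F n` of the powers `X ^ n` there is a continuous
`f : X → X` whose image has a countable network, with `f ^ n (F n) ⊆ F n` for all `n`. -/
def IsSokolov (X : Type u) [TopologicalSpace X] : Prop :=
  ∀ F : (n : ℕ) → Set (Fin n → X), (∀ n, IsClosed (F n)) →
    ∃ f : X → X, Continuous f ∧ CountableNetwork (range f) ∧
      ∀ n, ∀ x ∈ F n, (fun i => f (x i)) ∈ F n

/-! ### The rank -/

section Rank

variable {K : Type u} [TopologicalSpace K]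

/-- The set of points of rank at most `α`. -/
def D (K : Type u) [TopologicalSpace K] (α : Ordinal.{u}) : Set K :=
  {x | ∃ U : Set K, IsOpen U ∧ x ∈ U ∧ ∀ y ∈ U, y ≠ x → ∃ β, ∃ _ : β < α, y ∈ D K β}
termination_by α

theorem mem_D {α : Ordinal.{u}} {x : K} :
    x ∈ D K α ↔ ∃ U : Set K, IsOpen U ∧ x ∈ U ∧ ∀ y ∈ U, y ≠ x → ∃ β < α, y ∈ D K β := by
  rw [D]
  simp only [exists_prop, mem_ofPred_eq]

theorem exists_mem_D (h : Scattered K) (x : K) : ∃ α, x ∈ D K α := by
  by_contra hx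
  obtain ⟨x, hxS, U, hU, hUS⟩ := h {x | ¬ ∃ α, x ∈ D K α} ⟨x, hx⟩
  have h1 : ∀ y : U, y.1 ≠ x → ∃ α, y.1 ∈ D K α := by
    intro y hy
    by_contra hcon
    have : y.1 ∈ U ∩ {x | ¬ ∃ α, x ∈ D K α} := ⟨y.2, hcon⟩
    rw [hUS] at this
    exact hy this
  choose g hg using h1
  classical
  let g' : U → Ordinal.{u} := fun y => if h : y.1 ≠ x then g y h else 0
  refine hxS ⟨Order.succ (⨆ y, g' y), ?_⟩
  rw [mem_D]
  have hxU : x ∈ U := by
    have : x ∈ U ∩ {x | ¬ ∃ α, x ∈ D K α} := by rw [hUS]; rfl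
    exact this.1
  refine ⟨U, hU, hxU, fun y hy hyx => ⟨g ⟨y, hy⟩ hyx, ?_, hg ⟨y, hy⟩ hyx⟩⟩
  rw [Order.lt_succ_iff]
  have h2 : g' ⟨y, hy⟩ = g ⟨y, hy⟩ hyx := by simp [g', hyx]
  rw [← h2]
  exact le_ciSup (Ordinal.bddAbove_of_small) _

theorem exists_rank (h : Scattered K) :
    ∃ ρ : K → Ordinal.{u}, Function.Injective ρ ∧ ∀ x, IsOpen {y | ρ y ≤ ρ x} := by
  classical
  let rk : K → Ordinal.{u} := fun x => sInf {α | x ∈ D K α}
  have hrk : ∀ x, x ∈ D K (rk x) := fun x => csInf_mem (exists_mem_D h x)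
  have hrk' : ∀ x, ∃ U : Set K, IsOpen U ∧ x ∈ U ∧ ∀ y ∈ U, y ≠ x → rk y < rk x := by
    intro x
    obtain ⟨U, hU, hx, hy⟩ := mem_D.1 (hrk x)
    refine ⟨U, hU, hx, fun y hyU hyx => ?_⟩
    obtain ⟨β, hβ, hyβ⟩ := hy y hyU hyx
    exact lt_of_le_of_lt (csInf_le' hyβ) hβ
  let e : K ↪ Ordinal.{u} × K := ⟨fun x => (rk x, x), fun x y hxy => (Prod.mk.inj hxy).2⟩
  let r : K → K → Prop := e ⁻¹'o (Prod.Lex (· < ·) WellOrderingRel)
  have : IsWellOrder K r := (RelEmbedding.preimage e _).isWellOrder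
  refine ⟨Ordinal.typein r, Ordinal.typein_injective r, fun x => ?_⟩
  rw [isOpen_iff_mem_nhds]
  intro y hy
  obtain ⟨U, hU, hyU, hlt⟩ := hrk' y
  filter_upwards [hU.mem_nhds hyU] with z hz
  by_cases hzy : z = y
  · rw [hzy]; exact hy
  · have h1 : r z y := Prod.Lex.left _ _ (hlt z hz hzy)
    exact le_trans (le_of_lt ((Ordinal.typein_lt_typein r).2 h1)) hy

theorem exists_max [CompactSpace K] {ρ : K → Ordinal.{u}} (hρ : ∀ x, IsOpen {y | ρ y ≤ ρ x})
    {C : Set K} (hC : IsClosed C) (hne : C.Nonempty) : ∃ x ∈ C, ∀ y ∈ C, ρ y ≤ ρ x := by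
  have : Nonempty C := hne.to_subtype
  obtain ⟨x, hx⟩ := hC.isCompact.elim_directed_cover (fun x : C => {y | ρ y ≤ ρ x})
    (fun x => hρ x) (fun x hx => mem_iUnion.2 ⟨⟨x, hx⟩, le_refl (ρ x)⟩) (by
      intro x y
      rcases le_total (ρ x) (ρ y) with h | h
      · exact ⟨y, fun z hz => le_trans hz h, fun z hz => hz⟩
      · exact ⟨x, fun z hz => hz, fun z hz => le_trans hz h⟩)
  exact ⟨x.1, x.2, fun y hy => hx hy⟩

theorem totallyDisconnected (h : Scattered K) [T1Space K] : TotallyDisconnectedSpace K := by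
  refine ⟨fun S _ hS => ?_⟩
  by_contra hns
  rw [not_subsingleton_iff] at hns
  obtain ⟨x, hxS, U, hU, hUS⟩ := h S hns.nonempty
  obtain ⟨y, hyS, hyx⟩ := hns.exists_ne x
  obtain ⟨z, hz, hz1, hz2⟩ := hS U {x}ᶜ hU isOpen_compl_singleton
    (fun w _ => by
      by_cases hw : w = x
      · left
        have : x ∈ U ∩ S := by rw [hUS]; rfl
        rw [hw]; exact this.1
      · right; exact hw)
    ⟨x, by rw [inter_comm, hUS]; rfl⟩ ⟨y, hyS, hyx⟩
  have : z ∈ U ∩ S := ⟨hz1, hz⟩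
  rw [hUS] at this
  exact hz2 this

end Rank

/-! ### Closing off -/

theorem exists_closed {T : Type u} (S₀ : Set T) (h₀ : S₀.Countable)
    (G : (n : ℕ) → (Fin n → T) → Set T) (hG : ∀ n a, (G n a).Countable) :
    ∃ S : Set T, S₀ ⊆ S ∧ S.Countable ∧ ∀ n a, (∀ i, a i ∈ S) → G n a ⊆ S := by
  let Q : ℕ → Set T := fun m =>
    Nat.rec S₀ (fun _ S => S ∪ ⋃ n, ⋃ a ∈ Set.pi univ (fun _ : Fin n => S), G n a) m
  have hQ : ∀ m, Q (m + 1) = Q m ∪ ⋃ n, ⋃ a ∈ Set.pi univ (fun _ : Fin n => Q m), G n a :=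
    fun m => rfl
  have hmono : Monotone Q := monotone_nat_of_le_succ fun m => by
    rw [hQ]; exact subset_union_left
  have hcount : ∀ m, (Q m).Countable := by
    intro m
    induction m with
    | zero => exact h₀
    | succ m ih =>
      rw [hQ]
      refine ih.union (countable_iUnion fun n => ?_)
      exact (Set.countable_univ_pi fun _ => ih).biUnion fun a _ => hG n a
  refine ⟨⋃ m, Q m, subset_iUnion Q 0, countable_iUnion hcount, ?_⟩
  intro n a ha
  have h1 : ∀ i, ∃ m, a i ∈ Q m := fun i => mem_iUnion.1 (ha i)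
  choose m hm using h1
  obtain ⟨M, hM⟩ : ∃ M, ∀ i, m i ≤ M := ⟨Finset.univ.sup m, fun i => Finset.le_sup (Finset.mem_univ i)⟩
  refine Subset.trans ?_ (subset_iUnion Q (M + 1))
  rw [hQ]
  refine Subset.trans ?_ subset_union_right
  refine Subset.trans ?_ (subset_iUnion _ n)
  exact subset_biUnion_of_mem (u := fun a => G n a) (mem_univ_pi.2 fun i => hmono (hM i) (hm i))

theorem exists_isGδ {K : Type u} [TopologicalSpace K] {U : Set (OmegaMod K)} (hU : IsOpen U)
    {x : OmegaMod K} (hx : x ∈ U) : ∃ G : Set K, IsGδ G ∧ x ∈ G ∧ G ⊆ U := by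
  induction hU with
  | basic s hs => exact ⟨s, hs, hx, Subset.rfl⟩
  | univ => exact ⟨univ, IsGδ.univ, mem_univ _, subset_univ _⟩
  | inter s t _ _ ihs iht =>
    obtain ⟨G, hG, hxG, hGs⟩ := ihs hx.1
    obtain ⟨G', hG', hxG', hGt⟩ := iht hx.2
    exact ⟨G ∩ G', hG.inter hG', ⟨hxG, hxG'⟩, inter_subset_inter hGs hGt⟩
  | sUnion S _ ih =>
    obtain ⟨s, hs, hxs⟩ := hx
    obtain ⟨G, hG, hxG, hGs⟩ := ih s hs hxs
    exact ⟨G, hG, hxG, hGs.trans (subset_sUnion_of_mem hs)⟩

/-- For every scattered compact Hausdorff space `K` (in particular for those of finite dispersion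
index), the omega-modification of `K` is a Sokolov space. -/
theorem result (K : Type u) [TopologicalSpace K] [CompactSpace K] [T2Space K] (h : Scattered K) :
    IsSokolov (OmegaMod K) := by
  classical
  intro F hF
  have := totallyDisconnected h
  obtain ⟨ρ, hinj, hopen⟩ := exists_rank h
  rcases isEmpty_or_nonempty K with hK | hK
  · exact ⟨id, continuous_id, ⟨∅, countable_empty, fun U _ y _ => (hK.false y.1).elim⟩,
      fun n x hx => hx⟩
  -- points of largest rank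
  have hmax : ∀ C : Set K, ∃ x, (IsClosed C → C.Nonempty → x ∈ C ∧ ∀ y ∈ C, ρ y ≤ ρ x) := by
    intro C
    by_cases hC : IsClosed C ∧ C.Nonempty
    · obtain ⟨x, hx, hx'⟩ := exists_max hopen hC.1 hC.2
      exact ⟨x, fun _ _ => ⟨hx, hx'⟩⟩
    · exact ⟨hK.some, fun h1 h2 => absurd ⟨h1, h2⟩ hC⟩
  choose m hm using hmax
  -- separating clopen sets
  have hsep : ∀ (n : ℕ) (a : Fin n → Set K), ∃ E : Fin n → ℕ → Set K, (∀ i j, IsClopen (E i j)) ∧
      ((fun i => m (a i)) ∉ F n → (∀ i j, m (a i) ∈ E i j) ∧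
        ∀ z ∈ F n, ¬ ∀ i j, z i ∈ E i j) := by
    intro n a
    by_cases hx : (fun i => m (a i)) ∈ F n
    · exact ⟨fun _ _ => univ, fun _ _ => isClopen_univ, fun h => absurd hx h⟩
    · obtain ⟨V, hV, hVF⟩ := isOpen_pi_iff'.1 (hF n).isOpen_compl _ hx
      have h1 : ∀ i, ∃ g : ℕ → Set K, (∀ j, IsOpen (g j)) ∧ (∀ j, m (a i) ∈ g j) ∧
          (⋂ j, g j) ⊆ V i := by
        intro i
        obtain ⟨G, hG, hxG, hGV⟩ := exists_isGδ (hV i).1 (hV i).2
        obtain ⟨g, hg, rfl⟩ := isGδ_iff_eq_iInter_nat.1 hG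
        exact ⟨g, hg, fun j => mem_iInter.1 hxG j, hGV⟩
      choose g hgo hgx hgV using h1
      have h2 : ∀ i j, ∃ E : Set K, IsClopen E ∧ m (a i) ∈ E ∧ E ⊆ g i j := fun i j =>
        compact_exists_isClopen_in_isOpen (hgo i j) (hgx i j)
      choose E hE hEx hEg using h2
      refine ⟨E, hE, fun _ => ⟨hEx, fun z hz hcon => ?_⟩⟩
      refine hVF (mem_univ_pi.2 fun i => hgV i (mem_iInter.2 fun j => hEg i j (hcon i j))) hz
  choose E hE hEsep using hsep
  -- the countable algebra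
  obtain ⟨A, hA0, hAc, hA⟩ := exists_closed {(univ : Set K)} (countable_singleton _)
    (fun n a => {t | ∃ i j, t = a i ∩ a j} ∪ {t | ∃ i, t = (a i)ᶜ} ∪ {t | ∃ i j, t = E n a i j})
    (by
      intro n a
      refine (Countable.union (Countable.union ?_ ?_) ?_)
      · exact (countable_range fun ij : Fin n × Fin n => a ij.1 ∩ a ij.2).mono (by
          rintro t ⟨i, j, rfl⟩; exact ⟨(i, j), rfl⟩)
      · exact (countable_range fun i : Fin n => (a i)ᶜ).mono (by
          rintro t ⟨i, rfl⟩; exact ⟨i, rfl⟩)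
      · exact (countable_range fun ij : Fin n × ℕ => E n a ij.1 ij.2).mono (by
          rintro t ⟨i, j, rfl⟩; exact ⟨(i, j), rfl⟩))
  -- we restrict to the clopen members
  let B : Set (Set K) := {C | C ∈ A ∧ IsClopen C}
  have hBu : univ ∈ B := ⟨hA0 rfl, isClopen_univ⟩
  have hBi : ∀ C ∈ B, ∀ C' ∈ B, C ∩ C' ∈ B := by
    intro C hC C' hC'
    refine ⟨?_, hC.2.inter hC'.2⟩
    refine hA 2 ![C, C'] ?_ (Or.inl (Or.inl ⟨0, 1, rfl⟩))
    intro i
    fin_cases i
    · exact hC.1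
    · exact hC'.1
  have hBc : ∀ C ∈ B, Cᶜ ∈ B := by
    intro C hC
    refine ⟨?_, hC.2.compl⟩
    refine hA 1 ![C] ?_ (Or.inl (Or.inr ⟨0, rfl⟩))
    intro i
    fin_cases i
    exact hC.1
  have hBE : ∀ n (a : Fin n → Set K), (∀ i, a i ∈ B) → ∀ i j, E n a i j ∈ B := by
    intro n a ha i j
    exact ⟨hA n a (fun i => (ha i).1) (Or.inr ⟨i, j, rfl⟩), hE n a i j⟩
  -- the choice of the least rank
  have hc : ∀ z : K, ∃ C ∈ B, z ∈ C ∧ ∀ C' ∈ B, z ∈ C' → ρ (m C) ≤ ρ (m C') := by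
    intro z
    obtain ⟨C, ⟨hC, hzC⟩, hmin⟩ := (InvImage.wf (fun C => ρ (m C))
      (wellFounded_lt (α := Ordinal.{u}))).has_min {C | C ∈ B ∧ z ∈ C} ⟨univ, hBu, mem_univ _⟩
    exact ⟨C, hC, hzC, fun C' hC' hz => not_lt.1 (hmin C' ⟨hC', hz⟩)⟩
  choose c hcB hcz hcmin using hc
  let r : K → K := fun z => m (c z)
  have hmem : ∀ z, ∀ C ∈ B, z ∈ C → r z ∈ C := by
    intro z C hC hz
    have h1 := hBi _ (hcB z) _ hC
    have h2 := hm (c z ∩ C) h1.2.isClosed ⟨z, hcz z, hz⟩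
    have h3 : ρ (m (c z ∩ C)) ≤ ρ (m (c z)) :=
      (hm (c z) (hcB z).2.isClosed ⟨z, hcz z⟩).2 _ h2.1.1
    have h4 : ρ (m (c z)) ≤ ρ (m (c z ∩ C)) := hcmin z _ h1 ⟨hcz z, hz⟩
    have h5 : m (c z ∩ C) = m (c z) := hinj (le_antisymm h3 h4)
    rw [h5] at h2
    exact h2.1.2
  have hiff : ∀ z, ∀ C ∈ B, (z ∈ C ↔ r z ∈ C) := by
    intro z C hC
    refine ⟨hmem z C hC, fun hr => ?_⟩
    by_contra hz
    exact hmem z _ (hBc C hC) hz hr
  have hconst : ∀ z z', (∀ C ∈ B, (z ∈ C ↔ z' ∈ C)) → r z = r z' := by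
    intro z z' hzz
    refine hinj (le_antisymm ?_ ?_)
    · exact hcmin z _ (hcB z') ((hzz _ (hcB z')).2 (hcz z'))
    · exact hcmin z' _ (hcB z) ((hzz _ (hcB z)).1 (hcz z))
  have hrange : (range r).Countable := by
    refine (hAc.image m).mono ?_
    rintro _ ⟨z, rfl⟩
    exact ⟨c z, (hcB z).1, rfl⟩
  have hcont : @Continuous (OmegaMod K) (OmegaMod K) _ _ r := by
    refine IsLocallyConstant.continuous ((IsLocallyConstant.iff_exists_open _).2 fun z => ?_)
    refine ⟨(⋂ C ∈ B, {w : K | w ∈ C ↔ z ∈ C} : Set K), ?_, ?_, ?_⟩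
    · refine isOpen_generateFrom_of_mem ?_
      refine IsGδ.biInter (hAc.mono fun C hC => hC.1) fun C hC => ?_
      by_cases hz : z ∈ C
      · have : {w : K | w ∈ C ↔ z ∈ C} = C := by ext w; simp [hz]
        rw [this]; exact hC.2.isOpen.isGδ
      · have : {w : K | w ∈ C ↔ z ∈ C} = Cᶜ := by ext w; simp [hz]
        rw [this]; exact hC.2.compl.isOpen.isGδ
    · exact mem_iInter₂.2 fun C _ => Iff.rfl
    · intro w hw
      exact hconst w z fun C hC => mem_iInter₂.1 hw C hC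
  refine ⟨r, hcont, ?_, ?_⟩
  · have : Countable (range r) := hrange.to_subtype
    refine ⟨range fun y : range r => {y}, countable_range _, fun U _ y hy => ?_⟩
    exact ⟨{y}, ⟨y, rfl⟩, rfl, singleton_subset_iff.2 hy⟩
  · intro n x hx
    by_contra hcon
    have h1 := hEsep n (fun i => c (x i)) hcon
    refine h1.2 x hx fun i j => ?_
    exact (hiff (x i) _ (hBE n _ (fun i => hcB (x i)) i j)).2 (h1.1 i j)

end Pool.Agent.Results.MP_1116a9_gt.ScatteredSokolov
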